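import Pool.Agent.W5h40.NH.Pluri

/-!
# The area obstruction to pluripotency (MP_f9d495_an)

A `C^r` diffeomorphism `f` of a flat torus is not pluripotent (and hence not strongly pluripotent)
for a set `Λ` which contains a point `x` with `limsup (1/n) log |det Df^n(x)| > 0`. For example, `f`
is never pluripotent for a hyperbolic set which contains a periodic orbit along which `f` expands
the area. The inverses of the elements of a dissipative Newhouse domain are of this kind.

The proof compares, for `g` near `f`, the Jacobians of `g^n` at the points of `D` and at `x_g` by
means of a Lipschitz approximation of `log |det Dg|`; by the measurability of the sets where the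
convergence is uniform there is a set of positive area whose images by `g^n` would have unbounded
area.
-/

open Set Filter Topology

namespace Pool.Agent.Results.MP_f9d495_an.AreaObstruction

open Pool.Agent.W5h40.NH

theorem result (b : Module.Basis (Fin 2) ℝ V) (r : ℕ) (hr : 1 ≤ r) (f : TorusDiffeo b r)
    (Λ : Set V) (x : V) (hx : x ∈ Λ) (c : ℝ) (hc : 0 < c)
    (hgrow : ∃ᶠ n : ℕ in atTop, c * n ≤ Real.log |(Dn f n x).det|) :
    ¬ StronglyPluripotent f Λ ∧ ¬ Pluripotent f Λ := by
  have h := area_obstruction' f hr hx hc hgrow
  exact ⟨fun h1 => h h1.pluripotent, h⟩

end Pool.Agent.Results.MP_f9d495_an.AreaObstruction
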