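import Pool.Agent.W5h40.NH.Pluri

/-!
# A Newhouse domain without pluripotent elements (MP_f9d495_an)

For every `r ≥ 2` there is a Newhouse domain `N` of `C^r` diffeomorphisms of a flat torus such that
no element of `N` is strongly pluripotent, or even pluripotent, for a hyperbolic set having a
homoclinic tangency.

Sketch. (a) Area obstruction: if the area is expanded exponentially along the orbit of a point `x`
of `Λ`, then `f` is not pluripotent for `Λ`: for `g` near `f` and `D` as in the definition, the
empirical measures of the points of `D` are near those of `x`, so that the Jacobians of `g^n` grow
exponentially on a subset of `D` of positive area, uniformly, and the area of its image by `g^n`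
would tend to infinity. (b) The model is a derived-from-Anosov map: the origin is an
area expanding saddle whose stable manifold is a short vertical segment ending at two sources, and
whose unstable manifold enters the basin of a hyperbolic attractor `A`, where it is folded by a
twist. The stable manifolds of `A` fill an open region and are tangent to a cone of vertical
directions, so that the folded curve is tangent to one of them, for all `C^1`-close maps.
(c) For all close maps a hyperbolic set contained in the attractor has no tangency; any other
hyperbolic set contains a point whose orbit stays in a central box, where the area is expanded.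
-/

open Set Filter Topology

namespace Pool.Agent.Results.MP_f9d495_an.NoPluripotency

open Pool.Agent.W5h40.NH

theorem result : ∃ b : Module.Basis (Fin 2) ℝ V, ∀ r : ℕ, 2 ≤ r →
    ∃ N : Set (TorusDiffeo b r), IsNewhouseDomain N ∧
      ∀ f ∈ N, ∀ Λ : Set V, IsHyperbolicSet f Λ → HasTangency f Λ →
        ¬ StronglyPluripotent f Λ ∧ ¬ Pluripotent f Λ := by
  refine ⟨b0, fun r hr => ⟨ND r, ND_newhouse (by omega), fun f hf Λ hΛ hT => ?_⟩⟩
  have h := ND_not_pluripotent (by omega) hf hΛ hT
  exact ⟨fun h1 => h h1.pluripotent, h⟩

end Pool.Agent.Results.MP_f9d495_an.NoPluripotency
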